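import Pool.Agent.H9.UC4

namespace Pool.Agent.Results.MP_baa5e6_mp.Counter
open Matrix Pool.Agent.H9.UC
open scoped ComplexOrder

/-- A five-qubit pure state singled out by uniform measurements among pure states but not among
all density matrices. -/
theorem result : ∃ (N : ℕ) (ψ : Q N → ℂ), 1 ≤ N ∧ star ψ ⬝ᵥ ψ = 1 ∧
    (∀ φ : Q N → ℂ, star φ ⬝ᵥ φ = 1 → SameData (proj φ) (proj ψ) → proj φ = proj ψ) ∧
    ∃ ρ : Matrix (Q N) (Q N) ℂ, ρ.PosSemidef ∧ trace ρ = 1 ∧ SameData ρ (proj ψ) ∧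
      ρ ≠ proj ψ :=
  ⟨5, psi0, by norm_num, psi0_norm, fun φ _ h => udp φ h, rho0, rho0_psd, rho0_tr,
    fun n _ J => same0 n J, rho0_ne⟩

end Pool.Agent.Results.MP_baa5e6_mp.Counter
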